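import Pool.Agent.H715.TW.Stm

set_option autoImplicit false

/-! T5 of the tower project (MP_28f2cb_lc, helper715). -/

namespace Pool.Agent.H282.TW

open Pool.Agent.H528R2 (Vge Inert Test vge_nat)
open Pool.Agent.H715.TW

/-- divisibility of integers gives a valuation -/
lemma vge_of_dvd {p K : ℕ} (hp : p.Prime) {x : ℤ} (h : ((p ^ K : ℕ) : ℤ) ∣ x) : Vge p K (x : ℚ) := by
  have := Fact.mk hp
  obtain ⟨y, rfl⟩ := h
  have h1 : Vge p (K : ℤ) (((p ^ K : ℕ) : ℤ) : ℚ) := by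
    right
    push_cast
    rw [padicValRat.pow, padicValRat.self hp.one_lt]
    simp
  have h2 := Pool.Agent.H528R2.Vge.mul hp h1 (Pool.Agent.H528R2.vge_int p y)
  rw [add_zero] at h2
  push_cast at h2 ⊢
  exact h2

/-- the choice of the prime -/
lemma choose_l (e1 N2 : ℕ) (he : e1 ≠ 0) (hN2 : N2 ≠ 0) (hd : 7 * e1 ∣ N2) :
    ∃ l : ℕ, l.Prime ∧ N2 < l ∧ ∀ p : ℕ, p.Prime → p ∣ N2 →
      (p ∣ 7 * e1 → ((p ^ padicValNat p N2 : ℕ) : ℤ) ∣ ((l : ℕ) : ℤ) - 1) ∧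
      (¬ p ∣ 7 * e1 → ((p ^ padicValNat p N2 : ℕ) : ℤ) ∣ ((e1 * l : ℕ) : ℤ) - 1) := by
  classical
  -- the residues
  have ht : ∀ p ∈ N2.primeFactors, ∃ t : ℕ, (p ∣ 7 * e1 → t = 1) ∧
      (¬ p ∣ 7 * e1 → ((p ^ padicValNat p N2 : ℕ) : ℤ) ∣ ((e1 * t : ℕ) : ℤ) - 1) := by
    intro p hp
    have hpp := Nat.prime_of_mem_primeFactors hp
    by_cases h : p ∣ 7 * e1
    · exact ⟨1, fun _ => rfl, fun h' => absurd h h'⟩
    · have hcop : Nat.Coprime e1 (p ^ padicValNat p N2) := by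
        apply Nat.Coprime.pow_right
        rw [Nat.coprime_comm, hpp.coprime_iff_not_dvd]
        exact fun h' => h (Dvd.dvd.mul_left h' 7)
      obtain ⟨x, y, hxy⟩ := Nat.isCoprime_iff_coprime.2 hcop
      have hm0 : ((p ^ padicValNat p N2 : ℕ) : ℤ) ≠ 0 := by
        exact_mod_cast pow_ne_zero _ hpp.ne_zero
      have hx : (((x % ((p ^ padicValNat p N2 : ℕ) : ℤ)).toNat : ℕ) : ℤ) = x % ((p ^ padicValNat p N2 : ℕ) : ℤ) :=
        Int.toNat_of_nonneg (Int.emod_nonneg _ hm0)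
      refine ⟨(x % ((p ^ padicValNat p N2 : ℕ) : ℤ)).toNat, fun h' => absurd h' h, fun _ => ?_⟩
      rw [Nat.cast_mul, hx, Int.emod_def]
      exact ⟨-y - e1 * (x / ((p ^ padicValNat p N2 : ℕ) : ℤ)), by linear_combination hxy⟩
  choose! t ht1 ht2 using ht
  obtain ⟨c, hc⟩ := Nat.chineseRemainderOfFinset t (fun p => p ^ padicValNat p N2) N2.primeFactors
    (fun p hp => pow_ne_zero _ (Nat.prime_of_mem_primeFactors hp).ne_zero)
    (by
      intro p hp q hq hpq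
      exact Nat.coprime_pow_primes _ _ (Nat.prime_of_mem_primeFactors hp) (Nat.prime_of_mem_primeFactors hq) hpq)
  have hK : ∀ p : ℕ, p.Prime → p ∣ N2 → 1 ≤ padicValNat p N2 := by
    intro p hp hpd
    have := Fact.mk hp
    exact one_le_padicValNat_of_dvd hN2 hpd
  have hcz : ∀ p ∈ N2.primeFactors, ((p ^ padicValNat p N2 : ℕ) : ℤ) ∣ (c : ℤ) - t p := by
    intro p hp
    have := (Nat.modEq_iff_dvd.1 (hc p hp).symm)
    exact this
  have hcop : Nat.Coprime c N2 := by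
    apply Nat.coprime_of_dvd
    intro p hp hpc hpN
    have hmem : p ∈ N2.primeFactors := Nat.mem_primeFactors.2 ⟨hp, hpN, hN2⟩
    have h1 : (p : ℤ) ∣ (c : ℤ) - t p := by
      refine dvd_trans ?_ (hcz p hmem)
      exact_mod_cast dvd_pow_self p (by have := hK p hp hpN; omega)
    have h2 : (p : ℤ) ∣ (t p : ℤ) := by
      have h3 : (p : ℤ) ∣ (c : ℤ) := by exact_mod_cast hpc
      have := dvd_sub h3 h1
      rwa [sub_sub_cancel] at this
    have h2' : p ∣ t p := by exact_mod_cast h2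
    by_cases h : p ∣ 7 * e1
    · rw [ht1 p hmem h] at h2'
      exact hp.one_lt.ne' (Nat.dvd_one.1 h2')
    · have h4 : (p : ℤ) ∣ ((e1 * t p : ℕ) : ℤ) - 1 := by
        refine dvd_trans ?_ (ht2 p hmem h)
        exact_mod_cast dvd_pow_self p (by have := hK p hp hpN; omega)
      have h5 : (p : ℤ) ∣ ((e1 * t p : ℕ) : ℤ) := by
        push_cast
        exact Dvd.dvd.mul_left h2 _
      have h6 := dvd_sub h5 h4
      rw [sub_sub_cancel] at h6
      have h7 : p ∣ 1 := by exact_mod_cast h6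
      exact hp.one_lt.ne' (Nat.dvd_one.1 h7)
  obtain ⟨l, hl1, hl2, hl3⟩ := Nat.forall_exists_prime_gt_and_modEq N2 hN2 hcop
  refine ⟨l, hl2, hl1, fun p hp hpN => ?_⟩
  have hmem : p ∈ N2.primeFactors := Nat.mem_primeFactors.2 ⟨hp, hpN, hN2⟩
  have hpd : ((p ^ padicValNat p N2 : ℕ) : ℤ) ∣ (N2 : ℤ) := by exact_mod_cast pow_padicValNat_dvd
  have h1 : ((p ^ padicValNat p N2 : ℕ) : ℤ) ∣ (l : ℤ) - c := hpd.trans (Nat.modEq_iff_dvd.1 hl3.symm)
  have h2 : ((p ^ padicValNat p N2 : ℕ) : ℤ) ∣ (l : ℤ) - t p := by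
    have := dvd_add h1 (hcz p hmem)
    rwa [sub_add_sub_cancel] at this
  refine ⟨fun h => ?_, fun h => ?_⟩
  · rw [ht1 p hmem h] at h2
    exact_mod_cast h2
  · have h3 := ht2 p hmem h
    have e : ((e1 * l : ℕ) : ℤ) - 1 = (((e1 * t p : ℕ) : ℤ) - 1) + e1 * ((l : ℤ) - t p) := by
      push_cast; ring
    rw [e]
    exact dvd_add h3 (Dvd.dvd.mul_left h2 _)

lemma Nf_pos (a v w : ℚ) : ∃ B : ℚ, ∀ u : ℚ, B < u → 0 < Nf a u v w := by
  set c2 := a * v + (a ^ 2 + 2 * a + 6) * w with hc2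
  set c1 := -((a + 3) * v ^ 2) - (a ^ 2 + 3 * a + 3) * v * w + (a ^ 2 + 4 * a + 9) * w ^ 2 with hc1
  set c0 := v ^ 3 + a * v ^ 2 * w - (a + 3) * v * w ^ 2 + w ^ 3 with hc0
  refine ⟨1 + |c2| + |c1| + |c0|, fun u hu => ?_⟩
  have e : Nf a u v w = u ^ 3 + c2 * u ^ 2 + c1 * u + c0 := by
    unfold Nf; rw [hc2, hc1, hc0]; ring
  rw [e]
  have a2 := abs_nonneg c2
  have a1 := abs_nonneg c1
  have a0 := abs_nonneg c0
  have b2 := neg_abs_le c2
  have b1 := neg_abs_le c1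
  have b0 := neg_abs_le c0
  have hu1 : 1 < u := by linarith
  have hu2 : u ≤ u ^ 2 := by nlinarith
  have hu3 : 1 ≤ u ^ 2 := by nlinarith
  have h2 : -(|c2|) * u ^ 2 ≤ c2 * u ^ 2 := mul_le_mul_of_nonneg_right b2 (by positivity)
  have h1 : -(|c1|) * u ^ 2 ≤ c1 * u := by
    calc -(|c1|) * u ^ 2 ≤ -(|c1|) * u := by nlinarith
      _ ≤ c1 * u := mul_le_mul_of_nonneg_right b1 (by linarith)
  have h0 : -(|c0|) * u ^ 2 ≤ c0 := by nlinarith
  have h3 : (1 + |c2| + |c1| + |c0|) * u ^ 2 < u * u ^ 2 := mul_lt_mul_of_pos_right hu (by positivity)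
  nlinarith

theorem t5 (h3 : S_T3) (h4 : S_T4) (hl : S_LOC) (hc : S_CONT) (hw : S_WA) : S_T5 := by
  classical
  intro a e1 he hval
  by_cases hroot : ∃ r : ℚ, r ^ 3 - a * r ^ 2 - (a + 3) * r - 1 = 0
  · refine ⟨29, by norm_num, by norm_num, ?_⟩
    exact h3 a _ (by positivity) hroot
  push Not at hroot
  obtain ⟨N2, hN2, hd, H⟩ := h4 a hroot (7 * e1) (by positivity)
  obtain ⟨l, hlp, hlN, hlc⟩ := choose_l e1 N2 he hN2 hd
  have h7 : l % 7 = 1 := by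
    have h7N : 7 ∣ N2 := (Dvd.intro _ rfl).trans hd
    have := Fact.mk (show Nat.Prime 7 by norm_num)
    have h1 := (hlc 7 (by norm_num) h7N).1 (Dvd.intro _ rfl)
    have h2 : (7 : ℤ) ∣ (l : ℤ) - 1 := by
      refine dvd_trans ?_ h1
      have : 7 ∣ 7 ^ padicValNat 7 N2 := dvd_pow_self 7 (by
        have := one_le_padicValNat_of_dvd hN2 h7N (p := 7)
        omega)
      exact_mod_cast this
    omega
  refine ⟨l, hlp, h7, ?_⟩
  -- the local approximations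
  have hloc : ∀ p ∈ N2.primeFactors, ∃ u v w : ℚ, Nf a u v w ≠ 0 ∧
      Vge p (padicValNat p N2) (((e1 * l : ℕ) : ℚ) / Nf a u v w - 1) := by
    intro p hp
    have hpp := Nat.prime_of_mem_primeFactors hp
    have hpd := Nat.dvd_of_mem_primeFactors hp
    by_cases h : p ∣ 7 * e1
    · obtain ⟨u, v, w, g1, g2⟩ := hl p a e1 (padicValNat p N2) hpp (hval p hpp h) (by exact_mod_cast he)
      refine ⟨u, v, w, g1, ?_⟩
      have g3 := vge_of_dvd hpp ((hlc p hpp hpd).1 h)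
      have e : ((e1 * l : ℕ) : ℚ) / Nf a u v w - 1 = (l : ℚ) * ((e1 : ℚ) / Nf a u v w - 1) + (((l : ℕ) : ℤ) - 1 : ℤ) := by
        push_cast; field_simp; ring
      rw [e]
      exact Pool.Agent.H528R2.Vge.add hpp (Pool.Agent.H528R2.Vge.nat_mul hpp l g2) g3
    · refine ⟨1, 0, 0, ?_, ?_⟩
      · unfold Nf; norm_num
      · have g3 := vge_of_dvd hpp ((hlc p hpp hpd).2 h)
        have e : ((e1 * l : ℕ) : ℚ) / Nf a 1 0 0 - 1 = (((e1 * l : ℕ) : ℤ) - 1 : ℤ) := by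
          unfold Nf; push_cast; norm_num
        rw [e]
        exact g3
  choose! u0 v0 w0 hn0 hv0 using hloc
  have hcont : ∀ p ∈ N2.primeFactors, ∃ L : ℤ, ∀ u v w : ℚ, Vge p L (u - u0 p) → Vge p L (v - v0 p) →
      Vge p L (w - w0 p) → Nf a u v w ≠ 0 ∧
        Vge p (padicValNat p N2) (Nf a (u0 p) (v0 p) (w0 p) / Nf a u v w - 1) := by
    intro p hp
    exact hc p a (u0 p) (v0 p) (w0 p) (padicValNat p N2) (Nat.prime_of_mem_primeFactors hp) (hn0 p hp)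
  choose! L hL using hcont
  set LL : ℤ := ∑ p ∈ N2.primeFactors, |L p| with hLL
  have hLle : ∀ p ∈ N2.primeFactors, L p ≤ LL := by
    intro p hp
    refine (le_abs_self _).trans ?_
    exact Finset.single_le_sum (f := fun p => |L p|) (fun _ _ => abs_nonneg _) hp
  have hP : ∀ p ∈ N2.primeFactors, p.Prime := fun p hp => Nat.prime_of_mem_primeFactors hp
  obtain ⟨v, -, hv⟩ := hw N2.primeFactors v0 LL 0 hP
  obtain ⟨w, -, hww⟩ := hw N2.primeFactors w0 LL 0 hP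
  obtain ⟨B, hB⟩ := Nf_pos a v w
  obtain ⟨u, huB, hu⟩ := hw N2.primeFactors u0 LL B hP
  refine H e1 l u v w he hlp (fun h => absurd (Nat.le_of_dvd (Nat.pos_of_ne_zero hN2) h) (by omega)) ?_ (hB u huB) ?_
  · intro p _ hpe
    exact (Dvd.dvd.mul_left hpe 7).trans hd
  · intro p hpp hpd
    have hmem : p ∈ N2.primeFactors := Nat.mem_primeFactors.2 ⟨hpp, hpd, hN2⟩
    obtain ⟨g1, g2⟩ := hL p hmem u v w ((hu p hmem).mono (hLle p hmem)) ((hv p hmem).mono (hLle p hmem))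
      ((hww p hmem).mono (hLle p hmem))
    have g3 := hv0 p hmem
    have hn := hn0 p hmem
    have e : ((e1 * l : ℕ) : ℚ) / Nf a u v w - 1 =
        (((e1 * l : ℕ) : ℚ) / Nf a (u0 p) (v0 p) (w0 p) - 1) + (Nf a (u0 p) (v0 p) (w0 p) / Nf a u v w - 1) +
        (((e1 * l : ℕ) : ℚ) / Nf a (u0 p) (v0 p) (w0 p) - 1) * (Nf a (u0 p) (v0 p) (w0 p) / Nf a u v w - 1) := by
      field_simp
      ring
    rw [e]
    refine Pool.Agent.H528R2.Vge.add hpp (Pool.Agent.H528R2.Vge.add hpp g3 g2) ?_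
    exact (Pool.Agent.H528R2.Vge.mul hpp g3 g2).mono (by omega)

end Pool.Agent.H282.TW
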